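import Pool.Agent.H7.IG.LevB
import Pool.Agent.H7.IG.Tk8

/-!
# Embeddings `e : V_α → V_η` with `e(γ) = κ`: basic facts (job SC-1)

`Emb M κ η γ α e` (Lev.lean), `η` a limit ordinal of `M`, `κ < η`. All ordinals `≤ η` are in `M` (`CTM.toZFSet_mem_of_le`), and
`ξ.toZFSet ∈ Lv M ζ` iff `ξ < ζ` (`Ordinal.rank_toZFSet`). `Lv M α`, `Lv M η` are transitive.
* `emb_alim`: `Lv M η` satisfies `∀ x ∃ y, x ∈ y` (`y = {x}`), so `Lv M α` does (`Elem.sat` or `Elem.ud`); apply it to `β.toZFSet`.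
* `emb_om`: if `γ = n < ω` then `e γ = γ` (`Elem.nat`), but `e γ = κ > α > γ`. So `ω ≤ γ < α` and `omZ ∈ Lv M α` (`omZ = ω.toZFSet`); if
  `γ = ω` then `e γ = γ` by `Elem.om`.
* `emb_lev`, `emb_lev'`: `Lev_Lv` (LevA).
* `emb_ord`: `ξ.toZFSet ∈ Lv M γ`.
* `emb_range`: `e y = β.toZFSet` is an ordinal, so `y` is an ordinal by elementarity (`Elem.ud` with `UD.isOrd`), `y = β'.toZFSet`,
  and `e y ∈ κ.toZFSet = e γ.toZFSet` gives `β' < γ` (`Elem.mem`), so `e y = y`.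
* `emb_glim`: if `γ = succ β` then `γ.toZFSet = insert β.toZFSet β.toZFSet`, so (elementarity, `UD.isInsert`)
  `κ = e γ = insert (e β) (e β) = insert β β = γ`.
-/

set_option autoImplicit false
set_option linter.unusedVariables false
set_option linter.unusedSectionVars false
set_option linter.unusedSimpArgs false
set_option linter.unusedTactic false
set_option linter.unreachableTactic false

namespace Pool.Agent.H95.SC

open Pool.Agent.H17.Omega Pool.Agent.H17.Omega.CTM Pool.Agent.H52.GX Pool.Agent.H52.GC Pool.Agent.H7.IG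

variable {M : Set ZFSet.{0}} {κ η γ α : Ordinal.{0}} {e : ZFSet.{0} → ZFSet.{0}}

theorem rank_fin {s : ZFSet.{0}} (hs : FinZ s) (h0 : 0 < κ) (hl : ∀ β < κ, Order.succ β < κ)
    (h : ∀ Q ∈ s, Q.rank < κ) : s.rank < κ := by
  obtain ⟨t, ht⟩ := hs
  have h1 : t.sup (fun Q => Order.succ Q.rank) < κ := by
    rw [Finset.sup_lt_iff (by simpa using h0)]
    exact fun Q hQ => hl _ (h Q ((ht Q).2 hQ))
  refine lt_of_le_of_lt (ZFSet.rank_le_iff.2 fun y hy => ?_) h1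
  exact lt_of_lt_of_le (Order.lt_succ y.rank) (Finset.le_sup (f := fun Q => Order.succ (ZFSet.rank Q)) ((ht y).1 hy))

theorem s1_tra (hM : CTM M) (ζ : Ordinal.{0}) : Tra (Lv M ζ) :=
  fun x hx y hy => ⟨hM.mem_of_mem hx.1 hy, (ZFSet.rank_lt_of_mem hy).trans hx.2⟩

theorem s1_ord (hM : CTM M) (hηM : η.toZFSet ∈ M) {ξ ζ : Ordinal.{0}} (h : ξ < ζ) (h' : ξ ≤ η) :
    ξ.toZFSet ∈ Lv M ζ :=
  ⟨hM.toZFSet_mem_of_le h' hηM, by rw [Ordinal.rank_toZFSet]; exact h⟩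

theorem emb_gmem (hM : CTM M) (hηM : η.toZFSet ∈ M) (hκη : κ < η) (hE : Emb M κ η γ α e) :
    γ.toZFSet ∈ Lv M α :=
  s1_ord hM hηM hE.lt (hE.lt.trans (hE.lt'.trans hκη)).le

theorem emb_alim (hM : CTM M) (hηM : η.toZFSet ∈ M) (hη : ∀ β < η, Order.succ β < η) (hκη : κ < η)
    (hE : Emb M κ η γ α e) : ∀ β < α, Order.succ β < α := by
  intro β hβ
  have hβη : β < η := hβ.trans (hE.lt'.trans hκη)
  have hβM : β.toZFSet ∈ Lv M α := s1_ord hM hηM hβ hβη.le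
  have hΨ : UD TraC (fun N (v : Fin 1 → N) => ∃ y : N, (v 0).1 ∈ y.1) :=
    UD.ex (P := fun N v y => (v 0).1 ∈ y.1) (UD.mem (UT.var _) (UT.var _))
  have h1 := Elem.ud hE.el (s1_tra hM α) (s1_tra hM η) hΨ ⟨_, hβM⟩ (fun _ => ⟨_, hβM⟩)
  have h2 : e β.toZFSet ∈ Lv M η := hE.el.map _ hβM
  obtain ⟨y, hy⟩ := h1.2 ⟨⟨{e β.toZFSet, e β.toZFSet}, hM.upair_mem h2.1 h2.1, by
    rw [ZFSet.rank_pair]
    exact max_lt (hη _ h2.2) (hη _ h2.2)⟩, ZFSet.mem_pair.2 (Or.inl rfl)⟩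
  have h3 : β < y.1.rank := by
    have := ZFSet.rank_lt_of_mem hy
    rwa [Ordinal.rank_toZFSet] at this
  exact (Order.succ_le_of_lt h3).trans_lt y.2.2

theorem s1_omZ : omZ = (Ordinal.omega0.{0}).toZFSet := by
  ext z
  rw [mem_omZ, Ordinal.mem_toZFSet_iff]
  constructor
  · rintro ⟨n, rfl⟩
    exact ⟨n, Ordinal.natCast_lt_omega0 n, (natZ_eq n).symm⟩
  · rintro ⟨o, ho, rfl⟩
    obtain ⟨n, rfl⟩ := Ordinal.lt_omega0.1 ho
    exact ⟨n, (natZ_eq n).symm⟩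

theorem emb_om (hM : CTM M) (hηM : η.toZFSet ∈ M) (hη : ∀ β < η, Order.succ β < η) (hκη : κ < η)
    (hE : Emb M κ η γ α e) : Ordinal.omega0 < γ := by
  have hg := emb_gmem hM hηM hκη hE
  have hne : e γ.toZFSet ≠ γ.toZFSet := by
    intro h
    rw [hE.crit, toZFSet_inj] at h
    exact absurd (hE.lt.trans hE.lt') (by rw [h]; exact lt_irrefl _)
  by_contra hc
  rcases lt_or_eq_of_le (not_lt.1 hc) with h | h
  · obtain ⟨n, rfl⟩ := Ordinal.lt_omega0.1 h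
    rw [← natZ_eq] at hne hg
    exact hne (Elem.nat hE.el (s1_tra hM α) (s1_tra hM η) n hg)
  · subst h
    rw [← s1_omZ] at hne hg
    exact hne (Elem.om hE.el (s1_tra hM α) (s1_tra hM η) hg)

theorem emb_lev (hM : CTM M) (hηM : η.toZFSet ∈ M) (hη : ∀ β < η, Order.succ β < η) (hκη : κ < η)
    (hE : Emb M κ η γ α e) : Lev M (Lv M α) :=
  Lev_Lv hM (hM.toZFSet_mem_of_le (hE.lt'.trans hκη).le hηM) (emb_alim hM hηM hη hκη hE)
    ((emb_om hM hηM hη hκη hE).trans hE.lt)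

theorem emb_lev' (hM : CTM M) (hηM : η.toZFSet ∈ M) (hη : ∀ β < η, Order.succ β < η) (hκη : κ < η)
    (hE : Emb M κ η γ α e) : Lev M (Lv M η) :=
  Lev_Lv hM hηM hη ((emb_om hM hηM hη hκη hE).trans (hE.lt.trans (hE.lt'.trans hκη)))

theorem emb_ord (hM : CTM M) (hηM : η.toZFSet ∈ M) (hκη : κ < η) (hE : Emb M κ η γ α e) {ξ : Ordinal.{0}}
    (hξ : ξ < γ) : e ξ.toZFSet = ξ.toZFSet :=
  hE.fix _ (s1_ord hM hηM hξ (hξ.trans (hE.lt.trans (hE.lt'.trans hκη))).le)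

theorem emb_range (hM : CTM M) (hηM : η.toZFSet ∈ M) (hκη : κ < η) (hE : Emb M κ η γ α e) {β : Ordinal.{0}}
    {y : ZFSet.{0}} (hy : y ∈ Lv M α) (hβ : β < κ) (h : e y = β.toZFSet) : y = β.toZFSet ∧ β < γ := by
  have hg := emb_gmem hM hηM hκη hE
  have h1 : y ∈ γ.toZFSet := by
    rw [Elem.mem hE.el (s1_tra hM α) (s1_tra hM η) hy hg, h, hE.crit]
    exact Ordinal.toZFSet_mem_toZFSet_iff.2 hβ
  obtain ⟨β', hβ', rfl⟩ := Ordinal.mem_toZFSet_iff.1 h1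
  rw [emb_ord hM hηM hκη hE hβ'] at h
  refine ⟨h, ?_⟩
  rw [toZFSet_inj] at h
  rw [← h]
  exact hβ'

theorem emb_glim (hM : CTM M) (hηM : η.toZFSet ∈ M) (hη : ∀ β < η, Order.succ β < η) (hκη : κ < η)
    (hE : Emb M κ η γ α e) : ∀ β < γ, Order.succ β < γ := by
  intro β hβ
  rcases lt_or_eq_of_le (Order.succ_le_of_lt hβ) with h | h
  · exact h
  exfalso
  have hg := emb_gmem hM hηM hκη hE
  have hβM : β.toZFSet ∈ Lv M α :=
    s1_ord hM hηM (hβ.trans hE.lt) (hβ.trans (hE.lt.trans (hE.lt'.trans hκη))).le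
  have hΨ : UD TraC (fun N (v : Fin 2 → N) => (v 0).1 = insert (v 1).1 (v 1).1) :=
    UD.isInsert (UT.var _) (UT.var _) (UT.var _)
  have h1 := Elem.ud hE.el (s1_tra hM α) (s1_tra hM η) hΨ ⟨_, hβM⟩
    (fun i => if i = 0 then ⟨_, hg⟩ else ⟨_, hβM⟩)
  have h2 : γ.toZFSet = insert β.toZFSet β.toZFSet := by
    rw [← h, Order.succ_eq_add_one, Ordinal.toZFSet_add_one]
  have h3 : e γ.toZFSet = insert (e β.toZFSet) (e β.toZFSet) := h1.1 h2
  rw [hE.crit, emb_ord hM hηM hκη hE hβ, ← h2, toZFSet_inj] at h3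
  exact absurd (hE.lt.trans hE.lt') (by rw [h3]; exact lt_irrefl _)

end Pool.Agent.H95.SC
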