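import Pool.Agent.H95.SC.S1
import Pool.Agent.H7.IG.SideN

/-!
# Embeddings whose range contains a rank function of `V_κ` (job SC-2)

`Low`: the preimages of sets of rank `< κ` have rank `< γ`.

`emb_low`. There is some embedding for `η` (`h.emb` with `∅`), so `ω < κ < η` (`emb_om`) and `Lev M (Lv M η)` (`emb_lev'`). Let `K` be
the set `V_κ` of `M` (`exists_Lv`), `K ∈ Lv M η`, and `ρ = {(x, rank x) : x ∈ K}`, in `M` by separation (`dfn_rank` of SideNb) from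
`prod K κ`, so `ρ ∈ Lv M η` (`Lev.prod`, `Lev.sbs`). Apply `h.emb` to `pair x (pair K ρ)`; `Elem.comp` gives `y`, `K'`, `ρ'` in `Lv M α` with
`e y = x`, `e K' = K`, `e ρ' = ρ`.
`Low`: `V_η` satisfies: `∀ x ∈ K, ∃ r ∈ κ, (x, r) ∈ ρ` and `∀ x r, (x, r) ∈ ρ → ∀ y ∈ x, ∃ r' ∈ r, (y, r') ∈ ρ`, so (`Elem.ud`, with
`e γ = κ`) `V_α` satisfies the same for `K'`, `γ`, `ρ'`. By induction on `x`: if `(x, r) ∈ ρ'` then `rank x ≤ rank r`. Let `z ∈ Lv M α`,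
`rank (e z) < κ`: `e z ∈ K = e K'`, so `z ∈ K'`, there is `r ∈ γ.toZFSet` with `(z, r) ∈ ρ'`, `rank z ≤ rank r < γ`.
-/

set_option autoImplicit false
set_option linter.unusedVariables false
set_option linter.unusedSectionVars false
set_option linter.unusedSimpArgs false
set_option linter.unusedTactic false
set_option linter.unreachableTactic false

namespace Pool.Agent.H95.SC

open Pool.Agent.H17.Omega Pool.Agent.H17.Omega.CTM Pool.Agent.H52.GX Pool.Agent.H52.GC Pool.Agent.H7.IG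

/-- Preimages of sets of rank `< κ` have rank `< γ`. -/
def Low (M : Set ZFSet.{0}) (κ γ α : Ordinal.{0}) (e : ZFSet.{0} → ZFSet.{0}) : Prop :=
  ∀ z ∈ Lv M α, (e z).rank < κ → z.rank < γ

/-- `ρ` behaves like a rank function on `K` with values in `κ`. -/
def S2R (N : Set ZFSet.{0}) (K κ ρ : N) : Prop :=
  (∀ x ∈ K.1, ∃ r ∈ κ.1, ZFSet.pair x r ∈ ρ.1) ∧
    ∀ x r : N, ZFSet.pair x.1 r.1 ∈ ρ.1 → ∀ y ∈ x.1, ∃ r' ∈ r.1, ZFSet.pair y r' ∈ ρ.1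

theorem s2R_ud : UD TraC (fun N (v : Fin 3 → N) => S2R N (v 0) (v 1) (v 2)) := by
  unfold S2R
  (repeat' first
      | exact UT.var _ | exact UT.last | assumption
      | refine UD.pairMem ?_ ?_ ?_ | refine UD.isPair ?_ ?_ ?_ | refine UD.mem ?_ ?_
      | refine UD.eqv ?_ ?_ | refine UD.eq ?_ ?_ | refine UD.subset ?_ ?_
      | refine UD.isEmpty ?_ | refine UD.isTrans ?_ | refine UD.isOrd ?_ | refine UD.isNat ?_
      | refine UD.isUpair ?_ ?_ ?_ | refine UD.isInsert ?_ ?_ ?_ | refine UD.isUnion ?_ ?_ ?_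
      | refine UD.and ?_ ?_ | refine UD.or ?_ ?_ | refine UD.iff ?_ ?_ | refine UD.not ?_
      | refine UD.imp ?_ ?_ | refine UD.all ?_ | refine UD.ex ?_ | exact UD.false' | exact UD.true'
      | refine UD.ball ?_ ?_ | refine UD.bex ?_ ?_)

theorem s2R_le {N : Set ZFSet.{0}} (hN : Tra N) {K κ ρ : N} (h : S2R N K κ ρ) :
    ∀ x r : N, ZFSet.pair x.1 r.1 ∈ ρ.1 → x.1.rank ≤ r.1.rank := by
  have key : ∀ α : Ordinal.{0}, ∀ x r : N, x.1.rank = α → ZFSet.pair x.1 r.1 ∈ ρ.1 →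
      x.1.rank ≤ r.1.rank := by
    intro α
    induction α using WellFoundedLT.induction with
    | ind α ih =>
      intro x r hx hr
      rw [ZFSet.rank_le_iff]
      intro y hy
      obtain ⟨r', hr', h1⟩ := h.2 x r hr y hy
      have h2 := ih y.rank (hx ▸ ZFSet.rank_lt_of_mem hy) ⟨y, hN _ x.2 _ hy⟩ ⟨r', hN _ r.2 _ hr'⟩ rfl h1
      exact lt_of_le_of_lt h2 (ZFSet.rank_lt_of_mem hr')
  exact fun x r hr => key _ x r rfl hr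

theorem emb_low {M : Set ZFSet.{0}} {κ η : Ordinal.{0}} (hM : CTM M) (h : Sc M κ) (hηM : η.toZFSet ∈ M)
    (hη : ∀ β < η, Order.succ β < η) (hκη : κ < η) {x : ZFSet.{0}} (hx : x ∈ Lv M η) :
    ∃ (γ α : Ordinal.{0}) (e : ZFSet.{0} → ZFSet.{0}), Emb M κ η γ α e ∧ Low M κ γ α e ∧
      ∃ y ∈ Lv M α, e y = x := by
  have hTra : ∀ ζ : Ordinal.{0}, Tra (Lv M ζ) := by
    intro ζ x hx y hy
    exact ⟨hM.mem_of_mem hx.1 hy, (ZFSet.rank_lt_of_mem hy).trans hx.2⟩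
  obtain ⟨γ₀, α₀, hγ₀, hα₀, e₀, he₀, hg₀, hf₀, hc₀, _⟩ := h.emb η hκη hηM x hx
  have hLev : Lev M (Lv M η) := emb_lev' hM hηM hη hκη ⟨hγ₀, hα₀, he₀, hg₀, hf₀, hc₀⟩
  obtain ⟨K, hK, hK'⟩ := exists_Lv hM h.mem
  have hKη : K ∈ Lv M η := by
    refine ⟨hK, lt_of_le_of_lt ?_ hκη⟩
    rw [ZFSet.rank_le_iff]
    exact fun y hy => ((hK' y).1 hy).2
  have hκL : κ.toZFSet ∈ Lv M η := ⟨h.mem, by rw [Ordinal.rank_toZFSet]; exact hκη⟩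
  have hd : hM.Dfn (fun v : Fin 1 → M => ∃ a b : M, (v 0).1 = ZFSet.pair a.1 b.1 ∧
      b.1 = a.1.rank.toZFSet) := by
    refine Dfn.ex (Dfn.ex (Dfn.and (Dfn.isPair (DT.var _) (DT.var _) (DT.var _)) ?_))
    exact Dfn.subst2 (P := fun a b : M => b.1 = a.1.rank.toZFSet) (dfn_rank hM) (DT.var _) (DT.var _)
  obtain ⟨ρ, hρ, hρ'⟩ := hM.exists_sep (P := fun z => ∃ a b : M, z.1 = ZFSet.pair a.1 b.1 ∧
      b.1 = a.1.rank.toZFSet) hd (hM.prod_mem hK h.mem)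
  have hρη : ρ ∈ Lv M η := hLev.sbs _ (Lev.prod hM hLev hKη hκL) _ hρ (fun z hz => ((hρ' z).1 hz).1)
  have hρp : ∀ a b : ZFSet.{0}, ZFSet.pair a b ∈ ρ ↔ a ∈ K ∧ b = a.rank.toZFSet := by
    intro a b
    rw [hρ']
    constructor
    · rintro ⟨h1, _, a', b', h2, h3⟩
      have h2' : ZFSet.pair a b = ZFSet.pair a'.1 b'.1 := h2
      rw [ZFSet.pair_inj] at h2'
      rw [ZFSet.pair_mem_prod] at h1
      exact ⟨h1.1, by rw [h2'.1, h2'.2]; exact h3⟩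
    · rintro ⟨h1, rfl⟩
      have haM : a ∈ M := hM.mem_of_mem hK h1
      have hbM : a.rank.toZFSet ∈ M := hM.rank_mem haM
      refine ⟨ZFSet.pair_mem_prod.2 ⟨h1, ?_⟩, hM.pair_mem haM hbM, ⟨a, haM⟩, ⟨_, hbM⟩, rfl, rfl⟩
      exact Ordinal.toZFSet_mem_toZFSet_iff.2 ((hK' a).1 h1).2
  obtain ⟨γ, α, hγα, hακ, e, he, hg, hf, hc, y', hy', hey⟩ := h.emb η hκη hηM
    (ZFSet.pair x (ZFSet.pair K ρ)) (Lev.opair hM hLev hx (Lev.opair hM hLev hKη hρη))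
  have hE : Emb M κ η γ α e := ⟨hγα, hακ, he, hg, hf, hc⟩
  obtain ⟨a, ha, b, hb, _, hea, heb⟩ := Elem.comp he (hTra α) (hTra η) hy' hey
  obtain ⟨K₁, hK₁, ρ₁, hρ₁, _, heK, heρ⟩ := Elem.comp he (hTra α) (hTra η) hb heb
  refine ⟨γ, α, e, hE, ?_, a, ha, hea⟩
  have hγL : γ.toZFSet ∈ Lv M α := emb_gmem hM hηM hκη hE
  have hB : S2R (Lv M η) ⟨K, hKη⟩ ⟨κ.toZFSet, hκL⟩ ⟨ρ, hρη⟩ := by
    constructor
    · intro x hx
      exact ⟨x.rank.toZFSet, Ordinal.toZFSet_mem_toZFSet_iff.2 ((hK' x).1 hx).2, (hρp _ _).2 ⟨hx, rfl⟩⟩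
    · intro x r hr y hy
      obtain ⟨h1, h2⟩ := (hρp _ _).1 hr
      have hyK : y ∈ K := (hK' y).2 (hTra κ _ ((hK' x.1).1 h1) _ hy)
      refine ⟨y.rank.toZFSet, ?_, (hρp _ _).2 ⟨hyK, rfl⟩⟩
      rw [h2]
      exact Ordinal.toZFSet_mem_toZFSet_iff.2 (ZFSet.rank_lt_of_mem hy)
  have hA : S2R (Lv M α) ⟨K₁, hK₁⟩ ⟨γ.toZFSet, hγL⟩ ⟨ρ₁, hρ₁⟩ := by
    refine (Elem.ud he (hTra α) (hTra η) s2R_ud ⟨_, hγL⟩
      ![⟨K₁, hK₁⟩, ⟨γ.toZFSet, hγL⟩, ⟨ρ₁, hρ₁⟩]).2 ?_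
    have e1 : (⟨e K₁, he.map _ hK₁⟩ : Lv M η) = ⟨K, hKη⟩ := Subtype.ext heK
    have e2 : (⟨e γ.toZFSet, he.map _ hγL⟩ : Lv M η) = ⟨κ.toZFSet, hκL⟩ := Subtype.ext hc
    have e3 : (⟨e ρ₁, he.map _ hρ₁⟩ : Lv M η) = ⟨ρ, hρη⟩ := Subtype.ext heρ
    show S2R (Lv M η) ⟨e K₁, he.map _ hK₁⟩ ⟨e γ.toZFSet, he.map _ hγL⟩ ⟨e ρ₁, he.map _ hρ₁⟩
    rw [e1, e2, e3]
    exact hB
  intro z hz hzr
  have h1 : z ∈ K₁ := by
    rw [Elem.mem he (hTra α) (hTra η) hz hK₁, heK, hK']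
    exact ⟨(he.map z hz).1, hzr⟩
  obtain ⟨r, hr, hzr'⟩ := hA.1 z h1
  have h2 := s2R_le (hTra α) hA ⟨z, hz⟩ ⟨r, hTra α _ hγL _ hr⟩ hzr'
  refine lt_of_le_of_lt h2 ?_
  have h3 := ZFSet.rank_lt_of_mem hr
  rw [Ordinal.rank_toZFSet] at h3
  exact h3

end Pool.Agent.H95.SC
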