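import Pool.Agent.H95.SC.S1
import Pool.Agent.H7.IG.LevC
import Pool.Agent.H7.IG.SideD

/-!
# `κ` is inaccessible: limit, `ω₁ < κ`, regular (job SC-3)

`exists_lim`: `CTM.exists_closed` (H17/Omega/CtmV), with `Φ z w := w = z`.
* `sc_lim`: let `η` be a limit `> κ`. For `β < κ` take an embedding with `β.toZFSet` in the range: `β < γ < κ` (`emb_range`).
* `sc_om`: let `δ = ω₁` of `M` (`exists_om1`), suppose `κ ≤ δ`. For any embedding (`η` a limit, `x = ∅`) `γ < κ ≤ δ` is countable in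
  `M`; `Elem.image_ctb`: `e γ = {e ξ : ξ ∈ γ} = γ` (`emb_ord`), but `e γ = κ ≠ γ`.
* `sc_reg`: let `a < κ`, `x ⊆ κ`, `Cvr M a x`. By `Lev.cvr` `Cvr (Lv M η) a x`. Take an embedding with `pair a x` in the range: `a = e a'` so
  `a' = a < γ` (`emb_range`), `x = e x'`. `Cvr (Lv M α) a x'` by elementarity (`Cvr` is `UD TraC`: unfold, block), so
  `Cvr M a x'` (`Lev.cvr`). `Elem.image` (`δ := a`): every `y ∈ x` is `e y'` with `y' ∈ x'`; `y` is an ordinal `< κ`, so `y < γ`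
  (`emb_range`). So `x ⊆ γ`.
-/

set_option autoImplicit false
set_option linter.unusedVariables false
set_option linter.unusedSectionVars false
set_option linter.unusedSimpArgs false
set_option linter.unusedTactic false
set_option linter.unreachableTactic false

namespace Pool.Agent.H95.SC

open Pool.Agent.H17.Omega Pool.Agent.H17.Omega.CTM Pool.Agent.H52.GX Pool.Agent.H52.GC Pool.Agent.H7.IG

/-- `Cvr` as a statement in the structure. -/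
def s3C (N : Set ZFSet.{0}) (v : Fin 2 → N) : Prop := ∃ f : N,
      (∀ y ∈ (v 0).1, ∀ x x' : N, ZFSet.pair y x.1 ∈ f.1 → ZFSet.pair y x'.1 ∈ f.1 → x.1 = x'.1) ∧
      ∀ x ∈ (v 1).1, ∃ y ∈ (v 0).1, ZFSet.pair y x ∈ f.1

theorem s3C_ud : UD TraC s3C := by
  unfold s3C
  (repeat' first
      | exact UT.var _ | exact UT.last | assumption
      | refine UD.pairMem ?_ ?_ ?_ | refine UD.isPair ?_ ?_ ?_ | refine UD.mem ?_ ?_
      | refine UD.eqv ?_ ?_ | refine UD.eq ?_ ?_ | refine UD.subset ?_ ?_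
      | refine UD.and ?_ ?_ | refine UD.or ?_ ?_ | refine UD.iff ?_ ?_ | refine UD.not ?_
      | refine UD.imp ?_ ?_ | refine UD.all ?_ | refine UD.ex ?_ | exact UD.false' | exact UD.true'
      | refine UD.ball ?_ ?_ | refine UD.bex ?_ ?_)

theorem s3_snd {A : Set ZFSet.{0}} (hA : Tra A) {x y f : ZFSet.{0}} (hf : f ∈ A) (h : ZFSet.pair x y ∈ f) :
    x ∈ A ∧ y ∈ A := by
  have h1 : ZFSet.pair x y ∈ A := hA _ hf _ h
  rw [pair_eq_upair] at h1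
  have h2 : ({x, y} : ZFSet.{0}) ∈ A := hA _ h1 _ (by simp)
  exact ⟨hA _ h2 _ (by simp), hA _ h2 _ (by simp)⟩

theorem s3C_iff {A : Set ZFSet.{0}} (hA : Tra A) (v : Fin 2 → A) : s3C A v ↔ Cvr A (v 0).1 (v 1).1 := by
  constructor
  · rintro ⟨f, h1, h2⟩
    exact ⟨f.1, f.2, fun y hy x x' h3 h4 => h1 y hy ⟨x, (s3_snd hA f.2 h3).2⟩ ⟨x', (s3_snd hA f.2 h4).2⟩ h3 h4, h2⟩
  · rintro ⟨f, hf, h1, h2⟩
    exact ⟨⟨f, hf⟩, fun y hy x x' h3 h4 => h1 y hy x.1 x'.1 h3 h4, h2⟩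

theorem exists_lim {M : Set ZFSet.{0}} (hM : CTM M) {x : ZFSet.{0}} (hx : x ∈ M) :
    ∃ η : Ordinal.{0}, η.toZFSet ∈ M ∧ x.rank < η ∧ ∀ β < η, Order.succ β < η := by
  obtain ⟨o, ho, h1, h2, _⟩ := hM.exists_closed (Φ := fun z w => w = z) (Dfn.eq (DT.var _) (DT.var _))
    (fun z => ⟨z, rfl⟩) ⟨x, hx⟩
  exact ⟨o, ho, h1, h2⟩

theorem s3_lv {M : Set ZFSet.{0}} (hM : CTM M) {η β : Ordinal.{0}} (hη : η.toZFSet ∈ M) (h : β < η) :
    β.toZFSet ∈ Lv M η :=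
  ⟨hM.toZFSet_mem_of_le h.le hη, by rw [Ordinal.rank_toZFSet]; exact h⟩

theorem s3_tra {M : Set ZFSet.{0}} (hM : CTM M) {η : Ordinal.{0}} : Tra (Lv M η) :=
  fun x hx y hy => ⟨hM.mem_of_mem hx.1 hy, (ZFSet.rank_lt_of_mem hy).trans hx.2⟩

variable {M : Set ZFSet.{0}} {κ : Ordinal.{0}}

theorem sc_emb (h : Sc M κ) {η : Ordinal.{0}} (hκη : κ < η) (hηM : η.toZFSet ∈ M) {x : ZFSet.{0}}
    (hx : x ∈ Lv M η) : ∃ (γ α : Ordinal.{0}) (e : ZFSet.{0} → ZFSet.{0}), Emb M κ η γ α e ∧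
      ∃ y ∈ Lv M α, e y = x := by
  obtain ⟨γ, α, h1, h2, e, h3, h4, h5, h6, h7⟩ := h.emb η hκη hηM x hx
  exact ⟨γ, α, e, ⟨h1, h2, h3, h4, h5, h6⟩, h7⟩

theorem sc_lim (hM : CTM M) (h : Sc M κ) : ∀ γ < κ, Order.succ γ < κ := by
  intro β hβ
  obtain ⟨η, hηM, h1, hη⟩ := exists_lim hM h.mem
  rw [Ordinal.rank_toZFSet] at h1
  obtain ⟨γ, α, e, hE, y, hy, hey⟩ := sc_emb h h1 hηM (s3_lv hM hηM (hβ.trans h1))
  have h2 := (emb_range hM hηM h1 hE hy hβ hey).2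
  exact (Order.succ_le_of_lt h2).trans_lt (hE.lt.trans hE.lt')

theorem sc_om (hM : CTM M) (h : Sc M κ) : ∃ δ < κ, IsOm1 M δ := by
  obtain ⟨δ, hδ⟩ := exists_om1 hM
  refine ⟨δ, ?_, hδ⟩
  by_contra hc
  rw [not_lt] at hc
  obtain ⟨η, hηM, h1, hη⟩ := exists_lim hM h.mem
  rw [Ordinal.rank_toZFSet] at h1
  have h0 : (∅ : ZFSet.{0}) ∈ Lv M η := by
    refine ⟨hM.empty_mem, ?_⟩
    rw [ZFSet.rank_empty]
    exact lt_of_le_of_lt (zero_le) h1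
  obtain ⟨γ, α, e, hE, _⟩ := sc_emb h h1 hηM h0
  have hγκ : γ < κ := hE.lt.trans hE.lt'
  have hA := emb_lev hM hηM hη h1 hE
  have hB := emb_lev' hM hηM hη h1 hE
  have hg := emb_gmem hM hηM h1 hE
  have h2 := Elem.image_ctb hM hM hA hB hE.el hg (hδ.ctb γ (hγκ.trans_le hc)) γ.toZFSet
  rw [hE.crit] at h2
  obtain ⟨x, hx, hx'⟩ := h2.1 (Ordinal.toZFSet_mem_toZFSet_iff.2 hγκ)
  obtain ⟨ξ, hξ, rfl⟩ := Ordinal.mem_toZFSet_iff.1 hx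
  rw [emb_ord hM hηM h1 hE hξ] at hx'
  exact hξ.ne (Ordinal.toZFSet_injective hx').symm

theorem sc_reg (hM : CTM M) (h : Sc M κ) : RegC M κ := by
  refine ⟨h.mem, fun a ha x hx hxκ hc => ?_⟩
  have haM : a.toZFSet ∈ M := hM.toZFSet_mem_of_le ha.le h.mem
  have hpM := hM.pair_mem haM hx
  obtain ⟨η, hηM, h1, hη⟩ := exists_lim hM (hM.upair_mem h.mem hpM)
  rw [ZFSet.rank_pair, max_lt_iff, Ordinal.rank_toZFSet] at h1
  have hκη : κ < η := (Order.lt_succ κ).trans h1.1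
  have hpη : ZFSet.pair a.toZFSet x ∈ Lv M η := ⟨hpM, (Order.lt_succ _).trans h1.2⟩
  obtain ⟨γ, α, e, hE, y, hy, hey⟩ := sc_emb h hκη hηM hpη
  have hA := emb_lev hM hηM hη hκη hE
  have hB := emb_lev' hM hηM hη hκη hE
  obtain ⟨a', ha', x', hx', rfl, h2, h3⟩ := Elem.comp hE.el hA.tra hB.tra hy hey
  obtain ⟨rfl, haγ⟩ := emb_range hM hηM hκη hE ha' ha h2
  have hxη : x ∈ Lv M η := (s3_snd hB.tra (hB.pair _ hpη _ hpη) (x := a.toZFSet) (y := x) (by simp)).2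
  have haη := s3_lv hM hηM (ha.trans hκη)
  have h4 : Cvr (Lv M η) a.toZFSet x := (Lev.cvr hM hB haη hxη).1 hc
  have h5 : s3C (Lv M η) (fun i => ⟨e ((![⟨a.toZFSet, ha'⟩, ⟨x', hx'⟩] : Fin 2 → Lv M α) i).1,
      hE.el.map _ ((![⟨a.toZFSet, ha'⟩, ⟨x', hx'⟩] : Fin 2 → Lv M α) i).2⟩) := by
    rw [s3C_iff hB.tra]
    show Cvr (Lv M η) (e a.toZFSet) (e x')
    rw [h2, h3]
    exact h4
  have h6 := (Elem.ud hE.el hA.tra hB.tra s3C_ud ⟨_, hA.om⟩ _).2 h5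
  rw [s3C_iff hA.tra] at h6
  have h7 : Cvr M a.toZFSet x' := (Lev.cvr hM hA ha' hx').2 h6
  have hfix : ∀ ξ ≤ a, e ξ.toZFSet = ξ.toZFSet := fun ξ hξ => emb_ord hM hηM hκη hE (hξ.trans_lt haγ)
  have h8 := Elem.image hM hM hA hB hE.el ha' hfix hx' h7
  rw [h3] at h8
  refine ⟨γ, hE.lt.trans hE.lt', fun z hz => ?_⟩
  obtain ⟨w, hw, hw'⟩ := (h8 z).1 hz
  obtain ⟨ξ, hξ, hξ'⟩ := Ordinal.mem_toZFSet_iff.1 (hxκ hz)
  subst hξ'
  have h9 := (emb_range hM hηM hκη hE (hA.tra _ hx' _ hw) hξ hw'.symm).2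
  exact Ordinal.toZFSet_mem_toZFSet_iff.2 h9

end Pool.Agent.H95.SC
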