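import Pool.Agent.H95.SC.S3
import Pool.Agent.H7.IG.Tk1

/-!
# `κ` is a strong limit (job SC-4)

Let `a < κ` and let `K₀` be the set `V_a` of `M` (`exists_Lv`). `exists_enum` gives an ordinal `μ` of `M` and an injective `f ∈ M`, `Onto f μ K₀`.
If `μ < κ` then `β = μ` works (`Cvr M μ K` via `f`, for all `K ⊆ K₀`). Suppose `κ ≤ μ`. Let `η` be a limit `> κ` and
`j = {z ∈ prod κ K₀ : z ∈ f}`, `j ∈ Lv M η` (`Lev.prod`, `Lev.sbs`; `K₀ ∈ Lv M η`). Take an embedding with `pair a j` in the range: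
`a < γ` (`emb_range`), `j = e j'`. Let `z` be the element of `K₀` with `(γ, z) ∈ f` (`γ < κ ≤ μ`); `(γ, z) ∈ j` and `e z = z` since
`rank z < a < γ`. `V_η` satisfies `∃ ξ ∈ κ, (ξ, z) ∈ j`, so `V_α` satisfies `∃ ξ ∈ γ, (ξ, z) ∈ j'` (`Elem.ud`; `e γ = κ`, `e z = z`,
`e j' = j`). Then `(ξ, z) = (e ξ, e z) = e (ξ, z) ∈ j`, so `ξ = γ` by injectivity: contradiction to `ξ < γ`.
-/

set_option autoImplicit false
set_option linter.unusedVariables false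
set_option linter.unusedSectionVars false
set_option linter.unusedSimpArgs false
set_option linter.unusedTactic false
set_option linter.unreachableTactic false

namespace Pool.Agent.H95.SC

open Pool.Agent.H17.Omega Pool.Agent.H17.Omega.CTM Pool.Agent.H52.GX Pool.Agent.H52.GC Pool.Agent.H7.IG

variable {M : Set ZFSet.{0}} {κ : Ordinal.{0}}

theorem s4_ud : UD TraC (fun N (v : Fin 3 → N) => ∃ ξ ∈ (v 0).1, ZFSet.pair ξ (v 1).1 ∈ (v 2).1) := by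
  (repeat' first
      | exact UT.var _ | exact UT.last | assumption
      | refine UD.pairMem ?_ ?_ ?_ | refine UD.isPair ?_ ?_ ?_ | refine UD.mem ?_ ?_
      | refine UD.and ?_ ?_ | refine UD.bex ?_ ?_)

theorem s4_tra (hM : CTM M) (ζ : Ordinal.{0}) : Tra (Lv M ζ) := by
  intro x hx y hy
  exact ⟨hM.mem_of_mem hx.1 hy, (ZFSet.rank_lt_of_mem hy).trans hx.2⟩

theorem sc_str (hM : CTM M) (h : Sc M κ) :
    ∀ α < κ, ∃ β < κ, ∀ K ∈ M, (∀ x ∈ K, x ∈ Lv M α) → Cvr M β.toZFSet K := by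
  intro a ha
  have haM : a.toZFSet ∈ M := hM.toZFSet_mem_of_le ha.le h.mem
  obtain ⟨K₀, hK₀, hK₀'⟩ := exists_Lv hM haM
  obtain ⟨μ, hμ, f, hf, hfo, hinj⟩ := exists_enum hM hK₀
  by_cases hμκ : μ < κ
  · refine ⟨μ, hμκ, fun K hK hKa => ⟨f, hf, fun y hy x x' h1 h2 => ?_, fun x hx => ?_⟩⟩
    · have hm : ∀ w, ZFSet.pair y w ∈ f → w ∈ K₀ := by
        intro w hw
        obtain ⟨u, hu, w', hw', h3⟩ := hfo.1.sub _ hw
        rw [ZFSet.pair_inj] at h3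
        rw [h3.2]
        exact hw'
      exact hfo.1.uni y hy x (hm x h1) x' (hm x' h2) h1 h2
    · exact hfo.2 x ((hK₀' x).2 (hKa x hx))
  · exfalso
    have hκμ : κ ≤ μ := not_lt.1 hμκ
    obtain ⟨η, hηM, hrk, hlim⟩ := exists_lim hM (hM.upair_mem h.mem hK₀)
    have hκη : κ < η := by
      have h1 : (κ.toZFSet).rank < ({κ.toZFSet, K₀} : ZFSet.{0}).rank := ZFSet.rank_lt_of_mem (by simp)
      rw [Ordinal.rank_toZFSet] at h1
      exact h1.trans hrk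
    have hKη : K₀ ∈ Lv M η :=
      ⟨hK₀, (ZFSet.rank_lt_of_mem (show K₀ ∈ ({κ.toZFSet, K₀} : ZFSet.{0}) by simp)).trans hrk⟩
    have hκL : κ.toZFSet ∈ Lv M η := ⟨h.mem, by rw [Ordinal.rank_toZFSet]; exact hκη⟩
    have haL : a.toZFSet ∈ Lv M η := ⟨haM, by rw [Ordinal.rank_toZFSet]; exact ha.trans hκη⟩
    obtain ⟨γ₀, α₀, e₀, hE₀, _⟩ := sc_emb h hκη hηM hκL
    have hLev := emb_lev' hM hηM hlim hκη hE₀
    have hjM : ZFSet.sep (fun z => z ∈ f) (ZFSet.prod κ.toZFSet K₀) ∈ M := by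
      refine hM.sep_mem (p := fun z => z ∈ f) ?_ (hM.prod_mem h.mem hK₀)
      show hM.Dfn (fun v : Fin 1 → M => (v 0).1 ∈ ((⟨f, hf⟩ : M)).1)
      exact Dfn.mem (DT.var _) (DT.const _)
    have hjL : ZFSet.sep (fun z => z ∈ f) (ZFSet.prod κ.toZFSet K₀) ∈ Lv M η :=
      hLev.sbs _ (Lev.prod hM hLev hκL hKη) _ hjM (fun z hz => (ZFSet.mem_sep.1 hz).1)
    obtain ⟨γ, α, e, hE, y₀, hy₀, hey₀⟩ := sc_emb h hκη hηM (Lev.opair hM hLev haL hjL)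
    have hTA : Tra (Lv M α) := s4_tra hM α
    have hTB : Tra (Lv M η) := s4_tra hM η
    obtain ⟨a', ha', j', hj', _, hea, hej⟩ := Elem.comp hE.el hTA hTB hy₀ hey₀
    obtain ⟨_, haγ⟩ := emb_range hM hηM hκη hE ha' ha hea
    have hγκ : γ < κ := hE.lt.trans hE.lt'
    have hγM : γ.toZFSet ∈ M := hM.toZFSet_mem_of_le hγκ.le h.mem
    obtain ⟨z, hz, hγz⟩ := hfo.1.tot γ.toZFSet (Ordinal.toZFSet_mem_toZFSet_iff.2 (hγκ.trans_le hκμ))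
    have hzL := (hK₀' z).1 hz
    have hez : e z = z := hE.fix z ⟨hzL.1, hzL.2.trans haγ⟩
    have hzα : z ∈ Lv M α := ⟨hzL.1, (hzL.2.trans haγ).trans hE.lt⟩
    have hγα : γ.toZFSet ∈ Lv M α := emb_gmem hM hηM hκη hE
    have h1 := (Elem.ud hE.el hTA hTB s4_ud ⟨z, hzα⟩ ![⟨γ.toZFSet, hγα⟩, ⟨z, hzα⟩, ⟨j', hj'⟩]).2 (by
      show ∃ ξ ∈ e γ.toZFSet, ZFSet.pair ξ (e z) ∈ e j'
      rw [hE.crit, hez, hej]
      exact ⟨γ.toZFSet, Ordinal.toZFSet_mem_toZFSet_iff.2 hγκ, ZFSet.mem_sep.2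
        ⟨ZFSet.pair_mem_prod.2 ⟨Ordinal.toZFSet_mem_toZFSet_iff.2 hγκ, hz⟩, hγz⟩⟩)
    obtain ⟨ξ, hξ, hξz⟩ : ∃ ξ ∈ γ.toZFSet, ZFSet.pair ξ z ∈ j' := h1
    obtain ⟨ξ', hξ', rfl⟩ := Ordinal.mem_toZFSet_iff.1 hξ
    have hpα : ZFSet.pair ξ'.toZFSet z ∈ Lv M α := hTA _ hj' _ hξz
    have hξα : ξ'.toZFSet ∈ Lv M α := hTA _ hγα _ hξ
    have h2 := (Elem.mem hE.el hTA hTB hpα hj').1 hξz
    rw [Elem.opair hE.el hTA hTB hξα hzα hpα, emb_ord hM hηM hκη hE hξ', hez, hej] at h2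
    have h3 := hinj _ _ _ (ZFSet.mem_sep.1 h2).2 hγz
    rw [h3] at hξ
    exact absurd (Ordinal.toZFSet_mem_toZFSet_iff.1 hξ) (lt_irrefl _)

theorem sc_inac (hM : CTM M) (h : Sc M κ) : Inac M κ :=
  ⟨h.mem, sc_om hM h, sc_lim hM h, sc_reg hM h, sc_str hM h⟩

end Pool.Agent.H95.SC
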