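import Pool.Agent.H95.SC.S2
import Pool.Agent.H95.SC.S4
import Pool.Agent.H7.IG.SideCa

/-!
# `γ` is a transitive node, `e` maps `P_γ` to `P_κ` (job SC-5)

* `emb_om1`: `δ = ω₁` of `M`. If `γ ≤ δ`: if `γ < δ` then `γ` is countable and `e γ = γ` as in `sc_om`. If `γ = δ`: `δ < κ` (`sc_om`,
  uniqueness of `ω₁`) so `κ` is not `ω₁` of `M`: `V_η` satisfies that some ordinal `< κ` is not countable (`¬ Cvr V_η ω ξ`; `Lev.ctb`), so
  `V_α` satisfies this for `γ`: some `ξ < γ = δ` is not countable in `M`: contradiction.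
* `emb_tr`: `γ < α < κ`; `UCof M γ`: `0 < γ` (`emb_om`), `emb_glim`; let `x ∈ M` be countable, all ranks of elements `< γ`. `rank x ≤ γ < α`,
  so `x ∈ Lv M α`, and `e x = {e y : y ∈ x} = x` (`Elem.image_ctb`, `hE.fix`). `rank (e x) ≤ γ < κ`, so `rank x < γ` by `Low`.
* `emb_Po`: `s ∈ P'` iff `e s ∈ P`. If `s ∈ P'` (so `s ∈ Lv M α`) then `e s ∈ P` is a finite set of nodes of rank `< κ` (`SmN.rk`, `TrO`),
  so `rank (e s) < κ` (`rank_fin` of S1, `sc_lim`), `rank s < γ` by `Low`, `e s = s`. Conversely for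
  `s ∈ P` with all ranks `< γ`: `rank s < γ` (`rank_fin`, `emb_glim`), `s ∈ M`, `e s = s ∈ P = e P'`, so `s ∈ P'` (`Elem.mem`).
-/

set_option autoImplicit false
set_option linter.unusedVariables false
set_option linter.unusedSectionVars false
set_option linter.unusedSimpArgs false
set_option linter.unusedTactic false
set_option linter.unreachableTactic false

namespace Pool.Agent.H95.SC

open Pool.Agent.H17.Omega Pool.Agent.H17.Omega.CTM Pool.Agent.H52.GX Pool.Agent.H52.GC Pool.Agent.H7.IG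

variable {M : Set ZFSet.{0}} {κ η γ α : Ordinal.{0}} {e : ZFSet.{0} → ZFSet.{0}}

theorem s5_ud : UD TraC (fun N (v : Fin 2 → N) => ∃ ξ ∈ (v 0).1, ¬ Cvr N (v 1).1 ξ) := by
  (repeat' first
      | exact UT.var _ | exact UT.last | assumption
      | exact UD.sub2 (P := fun N a b => Cvr N a.1 b.1) levC_ud4 (UT.var _) (UT.var _)
      | refine UD.and ?_ ?_ | refine UD.or ?_ ?_ | refine UD.iff ?_ ?_ | refine UD.not ?_
      | refine UD.imp ?_ ?_ | refine UD.all ?_ | refine UD.ex ?_ | exact UD.false' | exact UD.true'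
      | refine UD.ball ?_ ?_ | refine UD.bex ?_ ?_)

theorem emb_om1 (hM : CTM M) (h : Sc M κ) (hηM : η.toZFSet ∈ M) (hη : ∀ β < η, Order.succ β < η) (hκη : κ < η)
    (hE : Emb M κ η γ α e) {δ : Ordinal.{0}} (hδ : IsOm1 M δ) : δ < γ := by
  have hL := emb_lev hM hηM hη hκη hE
  have hL' := emb_lev' hM hηM hη hκη hE
  have hg := emb_gmem hM hηM hκη hE
  by_contra hcon
  rcases (not_lt.1 hcon).lt_or_eq with h1 | h1
  · have h2 := Elem.image_ctb hM hM hL hL' hE.el hg (hδ.ctb γ h1)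
    have h3 : e γ.toZFSet = γ.toZFSet := by
      ext z
      rw [h2 z]
      constructor
      · rintro ⟨x, hx, rfl⟩
        obtain ⟨ξ, hξ, rfl⟩ := Ordinal.mem_toZFSet_iff.1 hx
        rw [emb_ord hM hηM hκη hE hξ]
        exact hx
      · intro hz
        obtain ⟨ξ, hξ, rfl⟩ := Ordinal.mem_toZFSet_iff.1 hz
        exact ⟨_, hz, (emb_ord hM hηM hκη hE hξ).symm⟩
    rw [hE.crit] at h3
    have h4 : κ = γ := Ordinal.toZFSet_injective h3
    have h5 := hE.lt.trans hE.lt'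
    rw [h4] at h5
    exact lt_irrefl _ h5
  · obtain ⟨δ', hδ'κ, hδ'⟩ := sc_om hM h
    have h2 : δ' = δ := ca_om1_unique hM hδ' hδ
    subst h2
    have hωe : e omZ = omZ := Elem.om hE.el hL.tra hL'.tra hL.om
    have hκB : κ.toZFSet ∈ Lv M η := by
      rw [← hE.crit]
      exact hE.el.map _ hg
    have h3 : ∃ ξ ∈ e γ.toZFSet, ¬ Cvr (Lv M η) (e omZ) ξ := by
      rw [hE.crit, hωe]
      refine ⟨δ'.toZFSet, Ordinal.toZFSet_mem_toZFSet_iff.2 hδ'κ, fun hc => ?_⟩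
      have hδB : δ'.toZFSet ∈ Lv M η := hL'.tra _ hκB _ (Ordinal.toZFSet_mem_toZFSet_iff.2 hδ'κ)
      exact hδ'.unc ((Lev.ctb hM hL' hδB).2 hc)
    have h4 := (Elem.ud hE.el hL.tra hL'.tra s5_ud ⟨_, hg⟩ ![⟨γ.toZFSet, hg⟩, ⟨omZ, hL.om⟩]).2 h3
    obtain ⟨ξ, hξ, h5⟩ : ∃ ξ ∈ γ.toZFSet, ¬ Cvr (Lv M α) omZ ξ := h4
    have hξA : ξ ∈ Lv M α := hL.tra _ hg _ hξ
    obtain ⟨β, hβ, rfl⟩ := Ordinal.mem_toZFSet_iff.1 hξ
    rw [h1] at hβ
    exact h5 ((Lev.ctb hM hL hξA).1 (hδ'.ctb β hβ))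

theorem emb_tr (hM : CTM M) (h : Sc M κ) (hηM : η.toZFSet ∈ M) (hη : ∀ β < η, Order.succ β < η) (hκη : κ < η)
    (hE : Emb M κ η γ α e) (hlow : Low M κ γ α e) : TrO M κ γ := by
  have hL := emb_lev hM hηM hη hκη hE
  have hL' := emb_lev' hM hηM hη hκη hE
  have hg := emb_gmem hM hηM hκη hE
  refine ⟨hg.1, hE.lt.trans hE.lt', lt_trans Ordinal.omega0_pos (emb_om hM hηM hη hκη hE), emb_glim hM hηM hη hκη hE, ?_⟩
  intro x hx hc hr
  have h1 : x.rank ≤ γ := ZFSet.rank_le_iff.2 fun y hy => hr y hy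
  have hxA : x ∈ Lv M α := ⟨hx, lt_of_le_of_lt h1 hE.lt⟩
  have hfix : ∀ y ∈ x, e y = y := fun y hy => hE.fix y ⟨hM.mem_of_mem hx hy, hr y hy⟩
  have h2 := Elem.image_ctb hM hM hL hL' hE.el hxA hc
  have h3 : e x = x := by
    ext z
    rw [h2 z]
    constructor
    · rintro ⟨y, hy, rfl⟩
      rw [hfix y hy]
      exact hy
    · intro hz
      exact ⟨z, hz, (hfix z hz).symm⟩
  refine hlow x hxA ?_
  rw [h3]
  exact lt_of_le_of_lt h1 (hE.lt.trans hE.lt')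

theorem emb_Po (hM : CTM M) (h : Sc M κ) (hηM : η.toZFSet ∈ M) (hη : ∀ β < η, Order.succ β < η) (hκη : κ < η)
    (hE : Emb M κ η γ α e) (hlow : Low M κ γ α e) {P P' : ZFSet.{0}} (hP : IsPK M κ P) (hP' : P' ∈ Lv M α)
    (he : e P' = P) : P' = Po P γ := by
  have hL := emb_lev hM hηM hη hκη hE
  have hL' := emb_lev' hM hηM hη hκη hE
  have h0γ : 0 < γ := lt_trans Ordinal.omega0_pos (emb_om hM hηM hη hκη hE)
  have h0κ : 0 < κ := h0γ.trans (hE.lt.trans hE.lt')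
  ext s
  rw [mem_Po]
  constructor
  · intro hs
    have hsA : s ∈ Lv M α := hL.tra _ hP' _ hs
    have h1 : e s ∈ P := by
      rw [← he]
      exact (Elem.mem hE.el hL.tra hL'.tra hsA hP').1 hs
    have hcd := (hP.2 _).1 h1
    have h2 : (e s).rank < κ := by
      refine rank_fin hcd.fin h0κ (sc_lim hM h) fun Q hQ => ?_
      rcases hcd.node Q hQ with h3 | ⟨o, ho, rfl⟩
      · exact h3.rk
      · rw [Ordinal.rank_toZFSet]
        exact ho.2.1
    have h3 := hlow s hsA h2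
    have h4 : e s = s := hE.fix s ⟨hsA.1, h3⟩
    rw [h4] at h1
    exact ⟨h1, fun Q hQ => (ZFSet.rank_lt_of_mem hQ).trans h3⟩
  · rintro ⟨hs, hr⟩
    have hcd := (hP.2 _).1 hs
    have h1 : s.rank < γ := rank_fin hcd.fin h0γ (emb_glim hM hηM hη hκη hE) hr
    have hsM : s ∈ M := hM.mem_of_mem hP.1 hs
    have h2 : e s = s := hE.fix s ⟨hsM, h1⟩
    refine (Elem.mem hE.el hL.tra hL'.tra ⟨hsM, h1.trans hE.lt⟩ hP').2 ?_
    rw [h2, he]
    exact hs

end Pool.Agent.H95.SC
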