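import Pool.Agent.H95.SC.S5

/-!
# A generic filter compatible with all embeddings (job SC-6)

`rs`: Rasiowa-Sikorski for countably many dense sets: `p 0 = p₀`, `p (n + 1) ⊇ p n` with `D n (p (n + 1))`;
`G = {q ∈ P : ∃ n, q ⊆ p n}` (`ZFSet.sep`).
`sc_gen`: `M` is countable: enumerate `M` and the pairs `(η, x)`, `η` an ordinal with `η.toZFSet ∈ M`, `x ∈ M`. Dense sets: for `D ∈ M`:
`D` itself if it is dense, everything otherwise; for `(η, x)` with `κ < η` a limit, `x ∈ Lv M η`: the set of the `s` for which there are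
`γ, α, e` with `Emb`, `Low`, `γ.toZFSet ∈ s` and `x` in the range of `e`. It is dense: given `s ∈ P`: `s ∈ Lv M η` (`rank_fin`);
`emb_low` for `pair x s`, `Elem.comp`: `e y = x`, `e s' = s`; `rank s < κ`, so `rank s' < γ` (`Low`) and `s = e s' = s'`: all members of `s` have
rank `< γ`. `insert γ.toZFSet s ∈ P` by `cond_top` (CondA; `ns_node` of SideNa, `emb_tr`).
-/

set_option autoImplicit false
set_option linter.unusedVariables false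
set_option linter.unusedSectionVars false
set_option linter.unusedSimpArgs false
set_option linter.unusedTactic false
set_option linter.unreachableTactic false

namespace Pool.Agent.H95.SC

open Pool.Agent.H17.Omega Pool.Agent.H17.Omega.CTM Pool.Agent.H52.GX Pool.Agent.H52.GC Pool.Agent.H7.IG

theorem rs {P p₀ : ZFSet.{0}} (hp₀ : p₀ ∈ P) (D : ℕ → ZFSet.{0} → Prop)
    (hD : ∀ n, ∀ p ∈ P, ∃ q ∈ P, p ⊆ q ∧ D n q) :
    ∃ G : ZFSet.{0}, (∀ p ∈ G, p ∈ P) ∧ p₀ ∈ G ∧ (∀ p ∈ G, ∀ q ∈ P, q ⊆ p → q ∈ G) ∧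
      (∀ p ∈ G, ∀ q ∈ G, ∃ r ∈ G, p ⊆ r ∧ q ⊆ r) ∧ ∀ n, ∃ p ∈ G, D n p := by
  choose! f hfP hfs hfD using hD
  let p : ℕ → ZFSet.{0} := fun n => Nat.rec p₀ (fun n q => f n q) n
  have hp : ∀ n, p n ∈ P := by
    intro n
    induction n with
    | zero => exact hp₀
    | succ n ih => exact hfP n _ ih
  have hmono : ∀ m n, m ≤ n → p m ⊆ p n := by
    intro m n h
    induction h with
    | refl => exact fun z hz => hz
    | step _ ih => exact fun z hz => hfs _ _ (hp _) (ih hz)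
  have hmem : ∀ q, q ∈ ZFSet.sep (fun q => ∃ n, q ⊆ p n) P ↔ q ∈ P ∧ ∃ n, q ⊆ p n := by
    intro q
    rw [ZFSet.mem_sep]
  refine ⟨ZFSet.sep (fun q => ∃ n, q ⊆ p n) P, fun q hq => ((hmem q).1 hq).1,
    (hmem _).2 ⟨hp₀, 0, fun z hz => hz⟩, ?_, ?_, ?_⟩
  · intro q hq r hr hrq
    obtain ⟨_, n, hn⟩ := (hmem q).1 hq
    exact (hmem r).2 ⟨hr, n, fun z hz => hn (hrq hz)⟩
  · intro q hq r hr
    obtain ⟨_, n, hn⟩ := (hmem q).1 hq
    obtain ⟨_, m, hm⟩ := (hmem r).1 hr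
    exact ⟨p (max n m), (hmem _).2 ⟨hp _, _, fun z hz => hz⟩,
      fun z hz => hmono _ _ (le_max_left _ _) (hn hz), fun z hz => hmono _ _ (le_max_right _ _) (hm hz)⟩
  · intro n
    exact ⟨p (n + 1), (hmem _).2 ⟨hp (n + 1), n + 1, fun z hz => hz⟩, hfD n _ (hp n)⟩

/-- Conditions have rank `< κ`. -/
theorem rank_cond {M : Set ZFSet.{0}} {κ : Ordinal.{0}} (hM : CTM M) (h : Sc M κ) {P : ZFSet.{0}}
    (hP : IsPK M κ P) {s : ZFSet.{0}} (hs : s ∈ P) : s.rank < κ := by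
  have hs' := (hP.2 s).1 hs
  obtain ⟨δ, hδ, _⟩ := sc_om hM h
  refine rank_fin hs'.fin (zero_le.trans_lt hδ) (sc_lim hM h) fun Q hQ => ?_
  rcases hs'.node Q hQ with hQ | ⟨o, ho, rfl⟩
  · exact hQ.rk
  · rw [Ordinal.rank_toZFSet]
    exact ho.2.1

/-- The density of the sets of conditions containing the critical point of an embedding. -/
theorem sc_dense {M : Set ZFSet.{0}} {κ : Ordinal.{0}} (hM : CTM M) (h : Sc M κ) {P : ZFSet.{0}}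
    (hP : IsPK M κ P) {η : Ordinal.{0}} (hκη : κ < η) (hηM : η.toZFSet ∈ M)
    (hη : ∀ β < η, Order.succ β < η) {x : ZFSet.{0}} (hx : x ∈ Lv M η) {s : ZFSet.{0}} (hs : s ∈ P) :
    ∃ q ∈ P, s ⊆ q ∧ ∃ (γ α : Ordinal.{0}) (e : ZFSet.{0} → ZFSet.{0}),
      Emb M κ η γ α e ∧ Low M κ γ α e ∧ TrO M κ γ ∧ γ.toZFSet ∈ q ∧ ∃ y ∈ Lv M α, e y = x := by
  obtain ⟨_, _, _, hE₀, _, _⟩ := emb_low hM h hηM hη hκη hx
  have hL := emb_lev' hM hηM hη hκη hE₀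
  have hsr := rank_cond hM h hP hs
  have hsη : s ∈ Lv M η := ⟨hM.mem_of_mem hP.1 hs, hsr.trans hκη⟩
  obtain ⟨γ, α, e, hE, hlow, y, hy, hey⟩ := emb_low hM h hηM hη hκη (Lev.opair hM hL hx hsη)
  obtain ⟨x', hx', s', hs', _, hex, hes⟩ := hE.el.comp (emb_lev hM hηM hη hκη hE).tra hL.tra hy hey
  have h1 : s'.rank < γ := hlow s' hs' (by rw [hes]; exact hsr)
  have h2 : s' = s := by
    rw [← hes]
    exact (hE.fix s' ⟨hs'.1, h1⟩).symm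
  rw [h2] at h1
  have htr := emb_tr hM h hηM hη hκη hE hlow
  refine ⟨insert γ.toZFSet s, (hP.2 _).2 (cond_top (ns_node hM κ) ((hP.2 s).1 hs) htr fun Q hQ =>
    (ZFSet.rank_lt_of_mem hQ).trans h1), fun z hz => ZFSet.mem_insert_of_mem _ hz, γ, α, e, hE, hlow, htr,
    ZFSet.mem_insert _ _, x', hx', hex⟩

theorem sc_gen {M : Set ZFSet.{0}} {κ : Ordinal.{0}} (hM : CTM M) (h : Sc M κ) {P : ZFSet.{0}}
    (hP : IsPK M κ P) : ∃ G, Gen M P G ∧ ∀ η : Ordinal.{0}, κ < η → η.toZFSet ∈ M →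
      (∀ β < η, Order.succ β < η) → ∀ x ∈ Lv M η, ∃ (γ α : Ordinal.{0}) (e : ZFSet.{0} → ZFSet.{0}),
        Emb M κ η γ α e ∧ Low M κ γ α e ∧ TrO M κ γ ∧ (∃ s ∈ G, γ.toZFSet ∈ s) ∧ ∃ y ∈ Lv M α, e y = x := by
  classical
  have hc : Countable M := hM.countable.to_subtype
  have hne : Nonempty M := hM.nonempty.to_subtype
  obtain ⟨φ, hφ⟩ := exists_surjective_nat (M ⊕ (M × M))
  let Q : M × M → Ordinal.{0} → Prop := fun i η => i.1.1 = η.toZFSet ∧ κ < η ∧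
    (∀ β < η, Order.succ β < η) ∧ i.2.1 ∈ Lv M η
  let D : M ⊕ (M × M) → ZFSet.{0} → Prop := fun i s => match i with
    | .inl d => (∀ p ∈ P, ∃ q ∈ P, p ⊆ q ∧ q ∈ d.1) → s ∈ d.1
    | .inr i => ∀ η, Q i η → ∃ (γ α : Ordinal.{0}) (e : ZFSet.{0} → ZFSet.{0}),
      Emb M κ η γ α e ∧ Low M κ γ α e ∧ TrO M κ γ ∧ γ.toZFSet ∈ s ∧ ∃ y ∈ Lv M α, e y = i.2.1
  have hD : ∀ i, ∀ p ∈ P, ∃ q ∈ P, p ⊆ q ∧ D i q := by
    intro i p hp
    rcases i with d | i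
    · by_cases hd : ∀ p ∈ P, ∃ q ∈ P, p ⊆ q ∧ q ∈ d.1
      · obtain ⟨q, hq, hpq, hqd⟩ := hd p hp
        exact ⟨q, hq, hpq, fun _ => hqd⟩
      · exact ⟨p, hp, fun z hz => hz, fun h => (hd h).elim⟩
    · by_cases hi : ∃ η, Q i η
      · obtain ⟨η, h1, h2, h3, h4⟩ := hi
        obtain ⟨q, hq, hpq, hq2⟩ := sc_dense hM h hP h2 (by rw [← h1]; exact i.1.2) h3 h4 hp
        refine ⟨q, hq, hpq, fun η' hη' => ?_⟩
        have h5 : η' = η := Ordinal.toZFSet_injective (hη'.1.symm.trans h1)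
        rw [h5]
        exact hq2
      · exact ⟨p, hp, fun z hz => hz, fun η hη => (hi ⟨η, hη⟩).elim⟩
  have h0 : (∅ : ZFSet.{0}) ∈ P := (hP.2 _).2 cond_empty
  obtain ⟨G, hGP, hG0, hup, hdir, hG⟩ := rs h0 (fun n => D (φ n)) (fun n => hD (φ n))
  refine ⟨G, ⟨hGP, ⟨_, hG0⟩, hup, hdir, fun d hd hdense => ?_⟩, fun η hκη hηM hη x hx => ?_⟩
  · obtain ⟨n, hn⟩ := hφ (.inl ⟨d, hd⟩)
    obtain ⟨p, hp, hpD⟩ := hG n
    simp only [hn] at hpD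
    exact ⟨p, hp, hpD hdense⟩
  · obtain ⟨n, hn⟩ := hφ (.inr (⟨_, hηM⟩, ⟨x, hx.1⟩))
    obtain ⟨p, hp, hpD⟩ := hG n
    simp only [hn] at hpD
    obtain ⟨γ, α, e, h1, h2, h3, h4, h5⟩ := hpD η ⟨rfl, hκη, hη, hx⟩
    exact ⟨γ, α, e, h1, h2, h3, ⟨p, hp, h4⟩, h5⟩

end Pool.Agent.H95.SC
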